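import Mathlib
import Pool.Agent.H66.SM.Near

/-!
# One-pass submodular matching: the ratio `2 - ε` needs `Ω(ε ^ 4 n ^ 2)` bits, uniformly in `ε`

The model (streams, oracle algorithms, success) is the one of `Pool.Graph.R_seed8.W977.SM.Defs`.
-/

set_option autoImplicit false

open Finset

namespace Pool.Agent.Results.MP_eef58c_lc.NearTwo

open Pool.Agent.W977.SM Pool.Agent.H66.SM

/-- The algorithm computes an `α`-approximation of a maximum submodular matching, with probability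
at least `2 / 3`, for every bipartite graph, every order of its edges and every objective
function that is monotone, submodular and a coverage function. -/
def ApproximatesCoverage {n b : ℕ} {Ω : Type} [Fintype Ω] (μ : Ω → ℝ) (A : Alg (Fin n) Ω b)
    (α : ℝ) : Prop :=
  ∀ (h : List (Sym2 (Fin n))) (f : Finset (Sym2 (Fin n)) → ℝ), IsStream h → IsBipartite h →
    IsCoverage f → MonoSub f → 2 / 3 ≤ prob μ fun ω => Success α f h (A.output ω f h)

theorem polylog (C : ℝ) (hC : 0 < C) (k n b : ℕ) (hn : 3 ≤ n)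
    (hb : (b : ℝ) ≤ C * n * Real.log n ^ k) (ε : ℝ) (hε : 0 < ε) (hε1 : ε ≤ 1)
    (hε4 : (9600 + 144000 * C) * Real.log n ^ k ≤ ε ^ 4 * n)
    (Ω : Type) [Fintype Ω] (μ : Ω → ℝ) (hμ0 : ∀ ω, 0 ≤ μ ω) (hμ1 : ∑ ω, μ ω = 1)
    (A : Alg (Fin n) Ω b) (hA : A.Legal) : ¬ ApproximatesCoverage μ A (2 - ε) := by
  intro happ
  have hnr : (3 : ℝ) ≤ n := by exact_mod_cast hn
  have hlog : 1 ≤ Real.log n := by
    rw [Real.le_log_iff_exp_le (by linarith)]
    linarith [Real.exp_one_lt_d9]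
  have hL : 1 ≤ Real.log n ^ k := one_le_pow₀ hlog
  have h1 : 9600 ≤ ε ^ 4 * n := by nlinarith
  have h2 : 144000 * C * Real.log n ^ k ≤ ε ^ 4 * n := by nlinarith
  obtain ⟨h, f, hs, hbi, hcov, hf, hpr⟩ := lower_explicit (η := 1 / 2) hε hε1 (by norm_num)
    (by norm_num) (n := n) (b := b) (by
      have h3 : ε ^ 4 * n ≤ ε ^ 3 * n := by
        have : ε ^ 4 ≤ ε ^ 3 := pow_le_pow_of_le_one hε.le hε1 (by norm_num)
        gcongr
      linarith) (by
      have h3 : 144000 * (C * n * Real.log n ^ k) ≤ ε ^ 4 * n * n := by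
        have := mul_le_mul_of_nonneg_right h2 (show (0 : ℝ) ≤ n by linarith)
        nlinarith
      have h4 : ε ^ 4 * n * n = ε ^ 4 * n ^ 2 := by ring
      rw [h4] at h3
      linarith) Ω μ hμ0 hμ1 A hA
  have := happ h f hs hbi hcov hf
  linarith

/-- **Theorem.** (1) For `0 < ε ≤ 1`, `0 < η ≤ 1` and `n ≥ 4800 / (ε ^ 3 η)`, every randomized
one-pass algorithm with at most `η ε ^ 4 n ^ 2 / 72000` bits of memory has a bipartite graph on `n`
vertices, an order of its edges and a (monotone submodular) coverage function for which it finds a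
`(2 - ε)`-approximation with probability at most `η`. (2) In particular a `(2 - ε)`-approximation
is impossible with `C n (log n) ^ k` bits, even for bipartite graphs and coverage functions,
whenever `ε ^ 4 n ≥ (9600 + 144000 C) (log n) ^ k`. (3) The question: this is so for every constant ratio
`α < 2` and all large `n`. -/
theorem result :
    (∀ ε η : ℝ, 0 < ε → ε ≤ 1 → 0 < η → η ≤ 1 → ∀ n b : ℕ, 4800 ≤ ε ^ 3 * η * n →
      72000 * (b : ℝ) ≤ η * ε ^ 4 * n ^ 2 →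
      ∀ (Ω : Type) [Fintype Ω] (μ : Ω → ℝ), (∀ ω, 0 ≤ μ ω) → ∑ ω, μ ω = 1 →
        ∀ A : Alg (Fin n) Ω b, A.Legal →
          ∃ (h : List (Sym2 (Fin n))) (f : Finset (Sym2 (Fin n)) → ℝ),
            IsStream h ∧ IsBipartite h ∧ IsCoverage f ∧ MonoSub f ∧
              prob μ (fun ω => Success (2 - ε) f h (A.output ω f h)) ≤ η) ∧
    (∀ C : ℝ, 0 < C → ∀ k n b : ℕ, 3 ≤ n → (b : ℝ) ≤ C * n * Real.log n ^ k →
      ∀ ε : ℝ, 0 < ε → ε ≤ 1 → (9600 + 144000 * C) * Real.log n ^ k ≤ ε ^ 4 * n →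
      ∀ (Ω : Type) [Fintype Ω] (μ : Ω → ℝ), (∀ ω, 0 ≤ μ ω) → ∑ ω, μ ω = 1 →
        ∀ A : Alg (Fin n) Ω b, A.Legal → ¬ ApproximatesCoverage μ A (2 - ε)) ∧
    (∀ α : ℝ, 1 ≤ α → α < 2 → ∀ (C : ℝ) (k : ℕ), ∃ n₀ : ℕ, ∀ n b : ℕ, n₀ ≤ n →
      (b : ℝ) ≤ C * n * Real.log n ^ k →
      ∀ (Ω : Type) [Fintype Ω] (μ : Ω → ℝ), (∀ ω, 0 ≤ μ ω) → ∑ ω, μ ω = 1 →
        ∀ A : Alg (Fin n) Ω b, A.Legal →
          ¬ ApproximatesCoverage μ A α ∧ ¬ Approximates μ A α) := by
  refine ⟨fun ε η h1 h2 h3 h4 n b h5 h6 Ω _ μ hμ0 hμ1 A hA =>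
      lower_explicit h1 h2 h3 h4 h5 h6 Ω μ hμ0 hμ1 A hA,
    fun C hC k n b hn hb ε hε hε1 hε4 Ω _ μ hμ0 hμ1 A hA =>
      polylog C hC k n b hn hb ε hε hε1 hε4 Ω μ hμ0 hμ1 A hA, ?_⟩
  intro α h1 h2 C k
  have hε : 0 < 2 - α := by linarith
  have hlog := (Real.isLittleO_pow_log_id_atTop (n := k)).bound
    (show 0 < (2 - α) ^ 4 / (9600 + 144000 * (|C| + 1)) by positivity)
  obtain ⟨n₁, hn₁⟩ := Filter.eventually_atTop.1 (tendsto_natCast_atTop_atTop.eventually hlog)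
  refine ⟨max 3 n₁, fun n b hn hb Ω _ μ hμ0 hμ1 A hA => ?_⟩
  have hn3 : 3 ≤ n := (le_max_left _ _).trans hn
  have h4 := hn₁ n ((le_max_right _ _).trans hn)
  have hnr : (3 : ℝ) ≤ n := by exact_mod_cast hn3
  have hlog0 : 0 ≤ Real.log n := Real.log_nonneg (by linarith)
  have hL : 0 ≤ Real.log n ^ k := pow_nonneg hlog0 k
  simp only [Real.norm_eq_abs, id_eq] at h4
  rw [abs_of_nonneg hL, abs_of_nonneg (by linarith : (0 : ℝ) ≤ n)] at h4
  have h5 : ¬ ApproximatesCoverage μ A α := by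
    have h6 := polylog (|C| + 1) (by positivity) k n b hn3 (hb.trans (by
      have : C ≤ |C| + 1 := by linarith [le_abs_self C]
      gcongr)) (2 - α) hε (by linarith) (by
      calc (9600 + 144000 * (|C| + 1)) * Real.log n ^ k
          ≤ (9600 + 144000 * (|C| + 1)) * ((2 - α) ^ 4 / (9600 + 144000 * (|C| + 1)) * n) := by
            gcongr
        _ = (2 - α) ^ 4 * n := by
            field_simp) Ω μ hμ0 hμ1 A hA
    rwa [sub_sub_cancel] at h6
  exact ⟨h5, fun h => h5 fun s f hs _ _ hf => h s f hs hf⟩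

end Pool.Agent.Results.MP_eef58c_lc.NearTwo
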